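import Mathlib
import Pool.Agent.W333.HF.POL

open Finset

namespace Pool.Agent.Results.MP_6ea067_co.ExactValue

/-- the restricted signed `h`-fold sumset `h ^± A` -/
def signedSumset {G : Type*} [AddCommGroup G] (h : ℕ) (A : Finset G) : Set G :=
  {g | ∃ B : Finset G, B ⊆ A ∧ B.card = h ∧
    ∃ ε : G → ℤ, (∀ b ∈ B, ε b = 1 ∨ ε b = -1) ∧ g = ∑ b ∈ B, ε b • b}

/-- `τ_^±(G,h)`, the largest size of `A ⊆ G` with `0 ∉ h ^± A` -/
noncomputable def tau (G : Type*) [AddCommGroup G] (h : ℕ) : ℕ :=
  sSup {m : ℕ | ∃ A : Finset G, A.card = m ∧ (0 : G) ∉ signedSumset h A}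

/-- the condition for `h = 3` -/
def Good {G : Type*} [AddCommGroup G] (A : Finset G) : Prop :=
  ∀ a ∈ A, ∀ b ∈ A, ∀ c ∈ A, a ≠ b → a ≠ c → b ≠ c → a + b + c ≠ 0 ∧ a + b ≠ c

lemma good_iff {G : Type*} [AddCommGroup G] (A : Finset G) :
    (0 : G) ∉ signedSumset 3 A ↔ Good A := by
  classical
  constructor
  · intro h a ha b hb c hc hab hac hbc
    have hcard : ({a, b, c} : Finset G).card = 3 := Finset.card_eq_three.mpr
      ⟨a, b, c, hab, hac, hbc, rfl⟩
    have hsub : ({a, b, c} : Finset G) ⊆ A := by
      intro x hx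
      simp only [Finset.mem_insert, Finset.mem_singleton] at hx
      rcases hx with rfl | rfl | rfl <;> assumption
    have hnb : a ∉ ({b, c} : Finset G) := by simp [hab, hac]
    have hnc : b ∉ ({c} : Finset G) := by simp [hbc]
    constructor
    · intro h0
      apply h
      refine ⟨{a, b, c}, hsub, hcard, fun _ => 1, fun _ _ => Or.inl rfl, ?_⟩
      rw [Finset.sum_insert hnb, Finset.sum_insert hnc, Finset.sum_singleton]
      simp only [one_smul]
      rw [← add_assoc, h0]
    · intro h0
      apply h
      refine ⟨{a, b, c}, hsub, hcard, fun z => if z = c then -1 else 1, fun z _ => ?_, ?_⟩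
      · by_cases hz : z = c
        · right; simp [hz]
        · left; simp [hz]
      · rw [Finset.sum_insert hnb, Finset.sum_insert hnc, Finset.sum_singleton]
        simp only [if_neg hac, if_neg hbc, if_true, one_smul, neg_smul]
        rw [← add_assoc, h0]; abel
  · rintro h ⟨B, hB, hcard, ε, hε, h0⟩
    obtain ⟨a, b, c, hab, hac, hbc, rfl⟩ := Finset.card_eq_three.mp hcard
    have ha : a ∈ A := hB (by simp)
    have hb : b ∈ A := hB (by simp)
    have hc : c ∈ A := hB (by simp)
    have hnb : a ∉ ({b, c} : Finset G) := by simp [hab, hac]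
    have hnc : b ∉ ({c} : Finset G) := by simp [hbc]
    rw [Finset.sum_insert hnb, Finset.sum_insert hnc, Finset.sum_singleton] at h0
    have h1 := h a ha b hb c hc hab hac hbc
    have h2 := h a ha c hc b hb hac hab hbc.symm
    have h3 := h b hb c hc a ha hbc hab.symm hac.symm
    rcases hε a (by simp) with ea | ea <;> rcases hε b (by simp) with eb | eb <;>
      rcases hε c (by simp) with ec | ec <;> rw [ea, eb, ec] at h0 <;>
      simp only [one_smul, neg_smul] at h0
    · exact h1.1 (by rw [h0]; abel)
    · exact h1.2 (by rw [← sub_eq_zero, h0]; abel)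
    · exact h2.2 (by rw [← sub_eq_zero, h0]; abel)
    · exact h3.2 (by rw [eq_comm, ← sub_eq_zero, h0]; abel)
    · exact h3.2 (by rw [← sub_eq_zero, h0]; abel)
    · exact h2.2 (by rw [eq_comm, ← sub_eq_zero, h0]; abel)
    · exact h1.2 (by rw [eq_comm, ← sub_eq_zero, h0]; abel)
    · exact h1.1 (by rw [← neg_eq_zero, h0]; abel)

section upper
variable {p : ℕ} [hp : Fact p.Prime]

/-- no relation `u + v = w` between signed versions of three distinct elements -/
lemma no_rel {A : Finset (ZMod p)} (h : Good A) {a b c u v w : ZMod p} (ha : a ∈ A) (hb : b ∈ A)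
    (hc : c ∈ A) (hab : a ≠ b) (hac : a ≠ c) (hbc : b ≠ c) (hu : u = a ∨ u = -a)
    (hv : v = b ∨ v = -b) (hw : w = c ∨ w = -c) : u + v ≠ w := by
  have h1 := h a ha b hb c hc hab hac hbc
  have h2 := h a ha c hc b hb hac hab hbc.symm
  have h3 := h b hb c hc a ha hbc hab.symm hac.symm
  intro heq
  rcases hu with rfl | rfl <;> rcases hv with rfl | rfl <;> rcases hw with rfl | rfl
  · exact h1.2 heq
  · exact h1.1 (by linear_combination heq)
  · exact h3.2 (by linear_combination -heq)
  · exact h2.2 (by linear_combination heq)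
  · exact h2.2 (by linear_combination -heq)
  · exact h3.2 (by linear_combination heq)
  · exact h1.1 (by linear_combination -heq)
  · exact h1.2 (by linear_combination -heq)

/-- Schur pairs in `T = A ∪ -A` come from singles -/
lemma schur_pairs {A : Finset (ZMod p)} (h : Good A) (h0 : (0 : ZMod p) ∉ A) (hp5 : 5 ≤ p)
    {u v : ZMod p} (hu : u ∈ A ∨ -u ∈ A) (hv : v ∈ A ∨ -v ∈ A) (hw : u + v ∈ A ∨ -(u + v) ∈ A) :
    ∃ s ∈ A, -s ∉ A ∧ ((u, v) = (s, s) ∨ (u, v) = (-s, -s) ∨ (u, v) = (s, -2 * s) ∨
      (u, v) = (-s, 2 * s) ∨ (u, v) = (-2 * s, s) ∨ (u, v) = (2 * s, -s)) := by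
  have h2 : (2 : ZMod p) ≠ 0 := by
    intro h
    have : ((2 : ℕ) : ZMod p) = 0 := by exact_mod_cast h
    rw [ZMod.natCast_eq_zero_iff] at this
    have := Nat.le_of_dvd (by norm_num) this
    omega
  have h3 : (3 : ZMod p) ≠ 0 := by
    intro h
    have : ((3 : ℕ) : ZMod p) = 0 := by exact_mod_cast h
    rw [ZMod.natCast_eq_zero_iff] at this
    have := Nat.le_of_dvd (by norm_num) this
    omega
  have hne0 : ∀ x : ZMod p, (x ∈ A ∨ -x ∈ A) → x ≠ 0 := by
    rintro x hx rfl
    rcases hx with hx | hx
    · exact h0 hx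
    · rw [neg_zero] at hx; exact h0 hx
  have cls : ∀ x : ZMod p, (x ∈ A ∨ -x ∈ A) → ∃ a ∈ A, x = a ∨ x = -a := by
    rintro x (hx | hx)
    · exact ⟨x, hx, Or.inl rfl⟩
    · exact ⟨-x, hx, Or.inr (neg_neg x).symm⟩
  have hu0 := hne0 u hu
  have hv0 := hne0 v hv
  have hw0 := hne0 _ hw
  obtain ⟨a, ha, hua⟩ := cls u hu
  obtain ⟨b, hb, hvb⟩ := cls v hv
  obtain ⟨c, hc, hwc⟩ := cls _ hw
  have ha0 : a ≠ 0 := fun h => h0 (h ▸ ha)
  have hb0 : b ≠ 0 := fun h => h0 (h ▸ hb)
  have haa : a ≠ -a := by
    intro h
    have : 2 * a = 0 := by linear_combination h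
    rcases mul_eq_zero.mp this with h | h
    · exact h2 h
    · exact ha0 h
  have hbb : b ≠ -b := by
    intro h
    have : 2 * b = 0 := by linear_combination h
    rcases mul_eq_zero.mp this with h | h
    · exact h2 h
    · exact hb0 h
  by_cases hab : a = b
  · -- `u = v`
    subst hab
    have huv : u = v := by
      rcases hua with e1 | e1 <;> rcases hvb with e2 | e2
      · rw [e1, e2]
      · exact absurd (by rw [e1, e2]; ring) hw0
      · exact absurd (by rw [e1, e2]; ring) hw0
      · rw [e1, e2]
    refine ⟨a, ha, ?_, ?_⟩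
    · intro hna
      have hca : c ≠ a ∧ c ≠ -a := by
        constructor
        · rintro rfl
          rcases hua with e1 | e1 <;> rcases hvb with e2 | e2 <;> rcases hwc with e3 | e3 <;>
            rw [e1, e2] at e3 <;> first
              | exact ha0 (by linear_combination e3)
              | exact ha0 (by linear_combination -e3)
              | (have : 3 * c = 0 := by linear_combination e3
                 exact (mul_ne_zero h3 ha0) this)
              | (have : 3 * c = 0 := by linear_combination -e3
                 exact (mul_ne_zero h3 ha0) this)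
        · rintro rfl
          rcases hua with e1 | e1 <;> rcases hvb with e2 | e2 <;> rcases hwc with e3 | e3 <;>
            rw [e1, e2] at e3 <;> first
              | exact ha0 (by linear_combination e3)
              | exact ha0 (by linear_combination -e3)
              | (have : 3 * a = 0 := by linear_combination e3
                 exact (mul_ne_zero h3 ha0) this)
              | (have : 3 * a = 0 := by linear_combination -e3
                 exact (mul_ne_zero h3 ha0) this)
      exact no_rel h ha hna hc haa hca.1.symm hca.2.symm hua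
        (by rw [neg_neg]; exact hvb.symm) hwc rfl
    · rcases hua with e1 | e1
      · left; rw [← huv, e1]
      · right; left; rw [← huv, e1]
  · by_cases hac : a = c
    · -- `v = -2u`
      subst hac
      have huw : v = -2 * u := by
        rcases hua with e1 | e1 <;> rcases hwc with e2 | e2
        · exact absurd (by linear_combination e2 - e1) hv0
        · linear_combination e2 + e1
        · linear_combination e2 + e1
        · exact absurd (by linear_combination e2 - e1) hv0
      refine ⟨a, ha, ?_, ?_⟩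
      · intro hna
        have hb2 : b ≠ -a := by
          rintro rfl
          rcases hua with e1 | e1 <;> rcases hvb with e2 | e2 <;> rw [e1, e2] at huw <;> first
              | exact ha0 (by linear_combination huw)
              | exact ha0 (by linear_combination -huw)
              | (have : 3 * a = 0 := by linear_combination huw
                 exact (mul_ne_zero h3 ha0) this)
              | (have : 3 * a = 0 := by linear_combination -huw
                 exact (mul_ne_zero h3 ha0) this)
        exact no_rel h ha hb hna hab haa hb2 hua hvb (by rw [neg_neg]; exact hwc.symm) rfl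
      · rcases hua with e1 | e1
        · right; right; left; rw [huw, e1]
        · right; right; right; left; rw [huw, e1]; congr 1; ring
    · by_cases hbc : b = c
      · subst hbc
        have hvw : u = -2 * v := by
          rcases hvb with e1 | e1 <;> rcases hwc with e2 | e2
          · exact absurd (by linear_combination e2 - e1) hu0
          · linear_combination e2 + e1
          · linear_combination e2 + e1
          · exact absurd (by linear_combination e2 - e1) hu0
        refine ⟨b, hb, ?_, ?_⟩
        · intro hnb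
          have ha2 : a ≠ -b := by
            rintro rfl
            rcases hua with e1 | e1 <;> rcases hvb with e2 | e2 <;> rw [e1, e2] at hvw <;> first
              | exact hb0 (by linear_combination hvw)
              | exact hb0 (by linear_combination -hvw)
              | (have : 3 * b = 0 := by linear_combination hvw
                 exact (mul_ne_zero h3 hb0) this)
              | (have : 3 * b = 0 := by linear_combination -hvw
                 exact (mul_ne_zero h3 hb0) this)
          exact no_rel h ha hb hnb hab ha2 hbb hua hvb (by rw [neg_neg]; exact hwc.symm) rfl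
        · rcases hvb with e1 | e1
          · right; right; right; right; left; rw [hvw, e1]
          · right; right; right; right; right; rw [hvw, e1]; congr 1; ring
      · exact absurd rfl (no_rel h ha hb hc hab hac hbc hua hvb hwc)


/-- the singles -/
def sing (A : Finset (ZMod p)) : Finset (ZMod p) := A.filter (fun a => -a ∉ A)

/-- the symmetrisation -/
def symm (A : Finset (ZMod p)) : Finset (ZMod p) := univ.filter (fun x => x ∈ A ∨ -x ∈ A)

lemma symm_card (A : Finset (ZMod p)) : (symm A).card = A.card + (sing A).card := by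
  have h1 : symm A = A ∪ (sing A).image (fun x => -x) := by
    ext x
    simp only [symm, sing, mem_filter, mem_univ, true_and, mem_union, mem_image]
    constructor
    · rintro (h | h)
      · exact Or.inl h
      · by_cases hx : x ∈ A
        · exact Or.inl hx
        · exact Or.inr ⟨-x, ⟨h, by rwa [neg_neg]⟩, neg_neg x⟩
    · rintro (h | ⟨y, ⟨hy, -⟩, rfl⟩)
      · exact Or.inl h
      · exact Or.inr (by rwa [neg_neg])
  have h2 : Disjoint A ((sing A).image (fun x => -x)) := by
    rw [Finset.disjoint_left]
    intro x hx hx2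
    obtain ⟨y, hy, rfl⟩ := mem_image.mp hx2
    exact (mem_filter.mp hy).2 hx
  rw [h1, Finset.card_union_of_disjoint h2, Finset.card_image_of_injective _ neg_injective]

lemma schur_count {A : Finset (ZMod p)} (h : Good A) (h0 : (0 : ZMod p) ∉ A) (hp5 : 5 ≤ p) :
    ∑ d ∈ symm A, Pool.Agent.W333.HF.rr (symm A) (symm A) d ≤ 6 * (sing A).card := by
  have h1 : ∑ d ∈ symm A, Pool.Agent.W333.HF.rr (symm A) (symm A) d
      = ((symm A ×ˢ symm A).filter (fun x => x.1 + x.2 ∈ symm A)).card := by
    rw [Finset.card_eq_sum_card_fiberwise (f := fun x : ZMod p × ZMod p => x.1 + x.2)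
      (t := symm A)]
    · refine Finset.sum_congr rfl fun d hd => ?_
      unfold Pool.Agent.W333.HF.rr
      refine Finset.card_nbij' (fun a => (a, d - a)) (fun x => x.1) ?_ ?_ ?_ ?_
      · intro a ha
        have ha' := mem_filter.mp (Finset.mem_coe.mp ha)
        apply Finset.mem_coe.mpr
        rw [mem_filter, mem_filter, mem_product]
        refine ⟨⟨⟨ha'.1, ha'.2⟩, ?_⟩, ?_⟩
        · simpa using hd
        · simp
      · intro x hx
        have hx' := mem_filter.mp (Finset.mem_coe.mp hx)
        obtain ⟨hx1, hx2⟩ := hx'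
        obtain ⟨hx3, -⟩ := mem_filter.mp hx1
        obtain ⟨hx4, hx5⟩ := mem_product.mp hx3
        apply Finset.mem_coe.mpr
        rw [mem_filter]
        refine ⟨hx4, ?_⟩
        have : d - x.1 = x.2 := by rw [← hx2]; ring
        rw [this]; exact hx5
      · intro a _; rfl
      · intro x hx
        have hx' := mem_filter.mp (Finset.mem_coe.mp hx)
        have : d - x.1 = x.2 := by rw [← hx'.2]; ring
        simp only [this]
    · intro x hx
      exact (mem_filter.mp (Finset.mem_coe.mp hx)).2
  rw [h1]
  set F : ZMod p × Fin 6 → ZMod p × ZMod p := fun x =>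
    ![(x.1, x.1), (-x.1, -x.1), (x.1, -2 * x.1), (-x.1, 2 * x.1), (-2 * x.1, x.1),
      (2 * x.1, -x.1)] x.2 with hF
  have h2 : (symm A ×ˢ symm A).filter (fun x => x.1 + x.2 ∈ symm A)
      ⊆ ((sing A) ×ˢ (univ : Finset (Fin 6))).image F := by
    rintro ⟨u, v⟩ hx
    simp only [mem_filter, mem_product, symm, mem_univ, true_and] at hx
    obtain ⟨s, hs1, hs2, hs3⟩ := schur_pairs h h0 hp5 hx.1.1 hx.1.2 hx.2
    have hs : s ∈ sing A := mem_filter.mpr ⟨hs1, hs2⟩
    rw [mem_image]
    rcases hs3 with e | e | e | e | e | e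
    · exact ⟨(s, 0), by simp [hs], by rw [e]; rfl⟩
    · exact ⟨(s, 1), by simp [hs], by rw [e]; rfl⟩
    · exact ⟨(s, 2), by simp [hs], by rw [e]; rfl⟩
    · exact ⟨(s, 3), by simp [hs], by rw [e]; rfl⟩
    · exact ⟨(s, 4), by simp [hs], by rw [e]; rfl⟩
    · exact ⟨(s, 5), by simp [hs], by rw [e]; rfl⟩
  calc _ ≤ _ := Finset.card_le_card h2
    _ ≤ ((sing A) ×ˢ (univ : Finset (Fin 6))).card := Finset.card_image_le
    _ = 6 * (sing A).card := by rw [card_product, Finset.card_univ, Fintype.card_fin, mul_comm]

/-- the key inequality from Pollard's theorem -/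
lemma pollard_bound {A : Finset (ZMod p)} (h : Good A) (h0 : (0 : ZMod p) ∉ A) (hp5 : 5 ≤ p)
    {m : ℕ} (hm : 3 * (symm A).card = p + m) : m * m ≤ 24 * (sing A).card + 1 := by
  have : NeZero p := ⟨by omega⟩
  set τ := (symm A).card with hτ
  have h0T : (0 : ZMod p) ∉ symm A := by
    simp only [symm, mem_filter, mem_univ, true_and, neg_zero, not_or]
    exact ⟨h0, h0⟩
  have hτp : τ + 1 ≤ p := by
    have : (insert 0 (symm A)).card ≤ Fintype.card (ZMod p) := Finset.card_le_univ _
    rwa [Finset.card_insert_of_notMem h0T, ZMod.card] at this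
  obtain ⟨t, ht⟩ : ∃ t, t = m / 2 := ⟨_, rfl⟩
  have htτ : t ≤ τ := by omega
  have hpol := Pool.Agent.W333.HF.main hp.out _ (symm A) (symm A) t rfl htτ htτ
  have hmin : min p ((symm A).card + (symm A).card - t) = 2 * τ - t := by
    rw [min_eq_right] <;> omega
  rw [hmin] at hpol
  have hsplit : ∑ d : ZMod p, min t (Pool.Agent.W333.HF.rr (symm A) (symm A) d)
      ≤ t * (p - τ) + 6 * (sing A).card := by
    rw [← Finset.sum_filter_add_sum_filter_not univ (fun d => d ∈ symm A)]
    have e1 : ∑ d ∈ univ.filter (fun d => d ∈ symm A),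
        min t (Pool.Agent.W333.HF.rr (symm A) (symm A) d) ≤ 6 * (sing A).card := by
      rw [Finset.filter_mem_eq_inter, Finset.univ_inter]
      refine le_trans (Finset.sum_le_sum fun d _ => min_le_right _ _) (schur_count h h0 hp5)
    have e2 : ∑ d ∈ univ.filter (fun d => ¬ d ∈ symm A),
        min t (Pool.Agent.W333.HF.rr (symm A) (symm A) d) ≤ t * (p - τ) := by
      refine le_trans (Finset.sum_le_card_nsmul _ _ t fun d _ => min_le_left _ _) ?_
      have : (univ.filter (fun d => ¬ d ∈ symm A)).card = p - τ := by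
        rw [Finset.filter_not, Finset.filter_mem_eq_inter, Finset.univ_inter,
          Finset.card_sdiff_of_subset (Finset.subset_univ _), Finset.card_univ, ZMod.card]
      rw [this, smul_eq_mul, mul_comm]
    omega
  have hfin := hpol.trans hsplit
  -- arithmetic
  obtain ⟨q, hq⟩ : ∃ q, p = τ + q := ⟨p - τ, by omega⟩
  have e3 : p - τ = q := by omega
  rw [e3] at hfin
  obtain ⟨w, hw⟩ : ∃ w, 2 * τ - t = q + w := ⟨2 * τ - t - q, by omega⟩
  rw [hw] at hfin
  have e4 : t * w ≤ 6 * (sing A).card := by nlinarith
  have e5 : w + t = m := by omega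
  rcases Nat.even_or_odd m with ⟨k, hk⟩ | ⟨k, hk⟩
  · have : t = k := by omega
    have hw' : w = k := by omega
    rw [this, hw'] at e4
    rw [hk]; nlinarith
  · have : t = k := by omega
    have hw' : w = k + 1 := by omega
    rw [this, hw'] at e4
    rw [hk]; nlinarith

lemma upper_bound {A : Finset (ZMod p)} (h : Good A) (hp7 : 7 ≤ p) : A.card ≤ p / 3 + 1 := by
  by_contra hcon
  push Not at hcon
  have hp3 : p % 3 ≠ 0 := by
    intro h3
    have : 3 ∣ p := Nat.dvd_of_mod_eq_zero h3
    have := (Nat.prime_dvd_prime_iff_eq Nat.prime_three hp.out).mp this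
    omega
  by_cases h0 : (0 : ZMod p) ∈ A
  · -- every nonzero element is a single
    set A' := A.erase 0 with hA'
    have hg : Good A' := fun a ha b hb c hc => h a (mem_of_mem_erase ha) b (mem_of_mem_erase hb) c
      (mem_of_mem_erase hc)
    have h0' : (0 : ZMod p) ∉ A' := Finset.notMem_erase _ _
    have hsing : sing A' = A' := by
      unfold sing
      rw [Finset.filter_true_of_mem]
      intro a ha hna
      have ha0 : a ≠ 0 := (Finset.mem_erase.mp ha).1
      have hne : a ≠ -a := by
        intro he
        have : 2 * a = 0 := by linear_combination he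
        rcases mul_eq_zero.mp this with h4 | h4
        · have : ((2 : ℕ) : ZMod p) = 0 := by exact_mod_cast h4
          rw [ZMod.natCast_eq_zero_iff] at this
          have := Nat.le_of_dvd (by norm_num) this
          omega
        · exact ha0 h4
      have := (h 0 h0 a (mem_of_mem_erase ha) (-a) (mem_of_mem_erase hna) ha0.symm
        (by simpa using ha0) hne).1
      apply this; ring
    have hc := symm_card A'
    rw [hsing] at hc
    have hcA : A'.card + 1 = A.card := Finset.card_erase_add_one h0
    obtain ⟨m, hm⟩ : ∃ m, 3 * (symm A').card = p + m := ⟨3 * (symm A').card - p, by omega⟩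
    have hb := pollard_bound hg h0' (by omega) hm
    rw [hsing] at hb
    have h5 : 3 * A'.card + 1 ≤ m := by omega
    have h6 : 3 ≤ A'.card := by omega
    nlinarith
  · have hc := symm_card A
    obtain ⟨m, hm⟩ : ∃ m, 3 * (symm A).card = p + m := ⟨3 * (symm A).card - p, by omega⟩
    have hb := pollard_bound h h0 (by omega) hm
    have h5 : 3 * (sing A).card + 4 ≤ m := by omega
    nlinarith

end upper

/-! ### Constructions -/

lemma good_of_nat {p : ℕ} (hp : 0 < p) {B : Finset ℕ} (hB : ∀ b ∈ B, b < p)
    (h1 : ∀ a ∈ B, ∀ b ∈ B, ∀ c ∈ B, a < b → b < c → ¬ p ∣ a + b + c)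
    (h2 : ∀ a ∈ B, ∀ b ∈ B, ∀ c ∈ B, a < b → a ≠ c → b ≠ c → a + b ≠ c ∧ a + b ≠ c + p) :
    ∃ A : Finset (ZMod p), A.card = B.card ∧ Good A := by
  have : NeZero p := ⟨by omega⟩
  have hinj : Set.InjOn (fun n : ℕ => (n : ZMod p)) B := by
    intro a ha b hb hab
    have := (ZMod.natCast_eq_natCast_iff' _ _ _).mp hab
    rwa [Nat.mod_eq_of_lt (hB a ha), Nat.mod_eq_of_lt (hB b hb)] at this
  refine ⟨B.image (fun n : ℕ => (n : ZMod p)), Finset.card_image_of_injOn hinj, ?_⟩
  intro x hx y hy z hz hxy hxz hyz
  obtain ⟨a, ha, rfl⟩ := mem_image.mp hx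
  obtain ⟨b, hb, rfl⟩ := mem_image.mp hy
  obtain ⟨c, hc, rfl⟩ := mem_image.mp hz
  have hab : a ≠ b := fun h => hxy (by rw [h])
  have hac : a ≠ c := fun h => hxz (by rw [h])
  have hbc : b ≠ c := fun h => hyz (by rw [h])
  constructor
  · intro h
    have h3 : ((a + b + c : ℕ) : ZMod p) = 0 := by push_cast; exact h
    rw [ZMod.natCast_eq_zero_iff] at h3
    rcases lt_or_gt_of_ne hab with h4 | h4 <;> rcases lt_or_gt_of_ne hac with h5 | h5 <;>
      rcases lt_or_gt_of_ne hbc with h6 | h6
    · exact h1 a ha b hb c hc h4 h6 h3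
    · exact h1 a ha c hc b hb h5 h6 (by rwa [add_right_comm])
    · omega
    · exact h1 c hc a ha b hb h5 h4 (by rwa [add_comm c a, add_right_comm])
    · exact h1 b hb a ha c hc h4 h5 (by rwa [add_comm b a])
    · omega
    · exact h1 b hb c hc a ha h6 h5 (by rwa [show b + c + a = a + b + c by ring])
    · exact h1 c hc b hb a ha h6 h4 (by rwa [show c + b + a = a + b + c by ring])
  · intro h
    have h3 : ((a + b : ℕ) : ZMod p) = (c : ZMod p) := by push_cast; exact h
    have h4 := (ZMod.natCast_eq_natCast_iff' _ _ _).mp h3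
    rw [Nat.mod_eq_of_lt (hB c hc)] at h4
    have ha' := hB a ha
    have hb' := hB b hb
    have h5 : a + b = c ∨ a + b = c + p := by
      rcases lt_or_ge (a + b) p with h6 | h6
      · left; rwa [Nat.mod_eq_of_lt h6] at h4
      · right
        rw [Nat.mod_eq_sub_mod h6, Nat.mod_eq_of_lt (by omega)] at h4
        omega
    rcases lt_or_gt_of_ne hab with h6 | h6
    · have := h2 a ha b hb c hc h6 hac hbc
      rcases h5 with h5 | h5
      · exact this.1 h5
      · exact this.2 h5
    · have := h2 b hb a ha c hc h6 hbc hac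
      rcases h5 with h5 | h5
      · exact this.1 (by omega)
      · exact this.2 (by omega)

lemma exists_good {p : ℕ} (hp7 : 7 ≤ p) (h3 : p % 3 ≠ 0) :
    ∃ A : Finset (ZMod p), A.card = p / 3 + 1 ∧ Good A := by
  obtain ⟨k, hk⟩ : ∃ k, p = 3 * k + 1 ∨ p = 3 * k + 2 := ⟨p / 3, by omega⟩
  rcases hk with hk | hk
  · have e : p / 3 + 1 = (Finset.Icc k (2*k)).card := by rw [Nat.card_Icc]; omega
    rw [e]
    refine good_of_nat (by omega) ?_ ?_ ?_
    · intro b hb; rw [Finset.mem_Icc] at hb; omega
    · intro a ha b hb c hc hab hbc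
      rw [Finset.mem_Icc] at ha hb hc
      rintro ⟨q, hq⟩
      have h1 : 1 < q := by
        by_contra h
        have : q ≤ 1 := by omega
        have : p * q ≤ p * 1 := Nat.mul_le_mul_left _ this
        omega
      have : p * 2 ≤ p * q := Nat.mul_le_mul_left _ h1
      omega
    · intro a ha b hb c hc hab hac hbc
      rw [Finset.mem_Icc] at ha hb hc
      omega
  · have e : p / 3 + 1 = (Finset.Icc (k+1) (2*k+1)).card := by rw [Nat.card_Icc]; omega
    rw [e]
    refine good_of_nat (by omega) ?_ ?_ ?_
    · intro b hb; rw [Finset.mem_Icc] at hb; omega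
    · intro a ha b hb c hc hab hbc
      rw [Finset.mem_Icc] at ha hb hc
      rintro ⟨q, hq⟩
      have h1 : 1 < q := by
        by_contra h
        have : q ≤ 1 := by omega
        have : p * q ≤ p * 1 := Nat.mul_le_mul_left _ this
        omega
      have : p * 2 ≤ p * q := Nat.mul_le_mul_left _ h1
      omega
    · intro a ha b hb c hc hab hac hbc
      rw [Finset.mem_Icc] at ha hb hc
      omega

lemma tau_eq {G : Type*} [AddCommGroup G] {n : ℕ} (h1 : ∃ A : Finset G, A.card = n ∧ Good A)
    (h2 : ∀ A : Finset G, Good A → A.card ≤ n) : tau G 3 = n := by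
  unfold tau
  have hb : BddAbove {m : ℕ | ∃ A : Finset G, A.card = m ∧ (0 : G) ∉ signedSumset 3 A} := by
    refine ⟨n, ?_⟩
    rintro m ⟨A, rfl, hA⟩
    exact h2 A ((good_iff A).mp hA)
  apply le_antisymm
  · obtain ⟨A, hA, hg⟩ := h1
    refine csSup_le ⟨n, A, hA, (good_iff A).mpr hg⟩ ?_
    rintro m ⟨B, rfl, hB⟩
    exact h2 B ((good_iff B).mp hB)
  · obtain ⟨A, hA, hg⟩ := h1
    exact le_csSup hb ⟨A, hA, (good_iff A).mpr hg⟩

lemma small2 : tau (ZMod 2) 3 = 2 := by
  refine tau_eq ⟨{0, 1}, by decide, ?_⟩ ?_
  · unfold Good; decide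
  · intro A _
    have := Finset.card_le_univ A
    simpa [ZMod.card] using this

lemma small3 : tau (ZMod 3) 3 = 2 := by
  refine tau_eq ⟨{0, 1}, by decide, ?_⟩ ?_
  · unfold Good; decide
  · unfold Good; decide

lemma small5 : tau (ZMod 5) 3 = 3 := by
  refine tau_eq ⟨{0, 1, 2}, by decide, ?_⟩ ?_
  · unfold Good; decide
  · unfold Good; decide

/-- **Main theorem.** `τ_^±(Z_p, 3) = ⌊p/3⌋ + 1` for every prime `p ≠ 2, 5`; the exceptional values
are `τ_^±(Z_2, 3) = 2` and `τ_^±(Z_5, 3) = 3`. -/
theorem result (p : ℕ) (hp : p.Prime) :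
    tau (ZMod p) 3 = if p = 2 then 2 else if p = 5 then 3 else p / 3 + 1 := by
  have : Fact p.Prime := ⟨hp⟩
  have hp2 := hp.two_le
  have hp4 : p ≠ 4 := by rintro rfl; exact absurd hp (by norm_num)
  have hp6 : p ≠ 6 := by rintro rfl; exact absurd hp (by norm_num)
  rcases lt_or_ge p 7 with h | h
  · have hcases : p = 2 ∨ p = 3 ∨ p = 5 := by omega
    rcases hcases with rfl | rfl | rfl
    · rw [if_pos rfl]; exact small2
    · rw [if_neg (by norm_num), if_neg (by norm_num)]; exact small3
    · rw [if_neg (by norm_num), if_pos rfl]; exact small5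
  · rw [if_neg (by omega), if_neg (by omega)]
    have h3 : p % 3 ≠ 0 := by
      intro h3
      have : 3 ∣ p := Nat.dvd_of_mod_eq_zero h3
      have := (Nat.prime_dvd_prime_iff_eq Nat.prime_three hp).mp this
      omega
    exact tau_eq (exists_good h h3) fun A hA => upper_bound hA h

end Pool.Agent.Results.MP_6ea067_co.ExactValue
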